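import Pool.Agent.helper40.BN.Lap
import Pool.Agent.helper58.BN.Solve
import Pool.Agent.helper33.Insul.H1b

set_option autoImplicit false

/-!
# MP_94a57f_an, module A4: truncation and comparison in the Dirichlet space
-/

open MeasureTheory Filter Topology Set Metric
open scoped ContDiff Gradient RealInnerProductSpace ENNReal

noncomputable section

namespace Pool.Agent.helper13.BN

variable {N : ℕ}

namespace Ch

/-! ### a `C¹` approximation of the positive part -/

def bt (δ t : ℝ) : ℝ := √((max (t - δ) 0) ^ 2 + δ ^ 2) - δ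
def bt' (δ t : ℝ) : ℝ := max (t - δ) 0 / √((max (t - δ) 0) ^ 2 + δ ^ 2)

lemma hasDerivAt_pos_sq (t : ℝ) : HasDerivAt (fun s : ℝ => (max s 0) ^ 2) (2 * max t 0) t := by
  rcases lt_trichotomy t 0 with ht | ht | ht
  · have h1 : (fun s : ℝ => (max s 0) ^ 2) =ᶠ[𝓝 t] fun _ => 0 := by
      filter_upwards [Iio_mem_nhds ht] with s hs
      rw [max_eq_right (le_of_lt hs)]; norm_num
    rw [max_eq_right ht.le, mul_zero]
    exact (hasDerivAt_const t (0 : ℝ)).congr_of_eventuallyEq h1
  · subst ht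
    rw [max_self, mul_zero, hasDerivAt_iff_isLittleO]
    have h1 : (fun x' : ℝ => (max x' 0) ^ 2 - (max (0 : ℝ) 0) ^ 2 - (x' - 0) • (0 : ℝ)) =O[𝓝 0]
        fun x' : ℝ => x' ^ 2 := by
      refine Asymptotics.IsBigO.of_bound 1 (Eventually.of_forall fun s => ?_)
      simp only [max_self, smul_zero, sub_zero, one_mul, norm_pow, Real.norm_eq_abs]
      simp only [ne_eq, OfNat.ofNat_ne_zero, not_false_eq_true, zero_pow, sub_zero, abs_pow]
      apply pow_le_pow_left₀ (abs_nonneg _)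
      rcases le_total s 0 with h | h
      · rw [max_eq_right h]; simp
      · rw [max_eq_left h]
    have h2 := h1.trans_isLittleO (Asymptotics.isLittleO_pow_id (by norm_num : 1 < 2))
    simpa using h2
  · have h1 : (fun s : ℝ => (max s 0) ^ 2) =ᶠ[𝓝 t] fun s => s ^ 2 := by
      filter_upwards [Ioi_mem_nhds ht] with s hs
      rw [max_eq_left (le_of_lt hs)]
    rw [max_eq_left ht.le]
    have := (hasDerivAt_pow 2 t).congr_of_eventuallyEq h1
    simpa using this

lemma rad_pos' {δ : ℝ} (hδ : 0 < δ) (t : ℝ) : 0 < (max (t - δ) 0) ^ 2 + δ ^ 2 := by positivity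

lemma hasDerivAt_bt {δ : ℝ} (hδ : 0 < δ) (t : ℝ) : HasDerivAt (bt δ) (bt' δ t) t := by
  have h1 : HasDerivAt (fun s : ℝ => (max (s - δ) 0) ^ 2) (2 * max (t - δ) 0) t := by
    have h2 := (hasDerivAt_pos_sq (t - δ)).comp t ((hasDerivAt_id t).sub_const δ)
    simpa [Function.comp_def] using h2
  have h3 := ((h1.add_const (δ ^ 2)).sqrt (rad_pos' hδ t).ne').sub_const δ
  refine h3.congr_deriv ?_
  unfold bt'
  have := Real.sqrt_pos.2 (rad_pos' hδ t)
  field_simp

lemma continuous_bt' {δ : ℝ} (hδ : 0 < δ) : Continuous (bt' δ) := by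
  unfold bt'
  refine Continuous.div (by fun_prop) (by fun_prop) fun t => ?_
  exact (Real.sqrt_pos.2 (rad_pos' hδ t)).ne'

lemma contDiff_bt {δ : ℝ} (hδ : 0 < δ) : ContDiff ℝ 1 (bt δ) := by
  rw [contDiff_one_iff_deriv]
  refine ⟨fun t => (hasDerivAt_bt hδ t).differentiableAt, ?_⟩
  have : deriv (bt δ) = bt' δ := by
    funext t; exact (hasDerivAt_bt hδ t).deriv
  rw [this]; exact continuous_bt' hδ

lemma bt_of_le {δ t : ℝ} (hδ : 0 < δ) (ht : t ≤ δ) : bt δ t = 0 := by
  unfold bt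
  rw [max_eq_right (by linarith)]
  simp [Real.sqrt_sq hδ.le]

lemma bt'_nonneg (δ t : ℝ) : 0 ≤ bt' δ t := by
  unfold bt'
  exact div_nonneg (le_max_right _ _) (Real.sqrt_nonneg _)

lemma bt'_le_one {δ : ℝ} (hδ : 0 < δ) (t : ℝ) : bt' δ t ≤ 1 := by
  unfold bt'
  rw [div_le_one (Real.sqrt_pos.2 (rad_pos' hδ t))]
  apply Real.le_sqrt_of_sq_le
  have := sq_nonneg δ
  linarith

lemma bt'_abs_le {δ : ℝ} (hδ : 0 < δ) (t : ℝ) : |bt' δ t| ≤ 1 := by
  rw [abs_of_nonneg (bt'_nonneg δ t)]; exact bt'_le_one hδ t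

/-- approximation of the positive part -/
lemma bt_approx {δ : ℝ} (hδ : 0 < δ) (t : ℝ) : |bt δ t - max t 0| ≤ 2 * δ := by
  unfold bt
  have h1 : max (t - δ) 0 ≤ √((max (t - δ) 0) ^ 2 + δ ^ 2) := by
    apply Real.le_sqrt_of_sq_le
    have := sq_nonneg δ
    linarith
  have h0 : 0 ≤ max (t - δ) 0 := le_max_right _ _
  have h2 : √((max (t - δ) 0) ^ 2 + δ ^ 2) ≤ max (t - δ) 0 + δ := by
    rw [Real.sqrt_le_left (by positivity)]
    nlinarith
  have h3 : max (t - δ) 0 ≤ max t 0 := max_le_max (by linarith) le_rfl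
  have h4 : max t 0 ≤ max (t - δ) 0 + δ := by
    apply max_le
    · have := le_max_left (t - δ) 0; linarith
    · linarith
  rw [abs_le]
  constructor <;> linarith

lemma bt_seq (t : ℝ) : Tendsto (fun k : ℕ => bt (1 / ((k : ℝ) + 1)) t) atTop (𝓝 (max t 0)) := by
  rw [tendsto_iff_norm_sub_tendsto_zero]
  have h1 : Tendsto (fun k : ℕ => 2 * (1 / ((k : ℝ) + 1))) atTop (𝓝 0) := by
    have := (tendsto_one_div_add_atTop_nhds_zero_nat (𝕜 := ℝ)).const_mul 2
    simpa using this
  refine squeeze_zero (fun k => norm_nonneg _) (fun k => ?_) h1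
  exact bt_approx (by positivity) t

lemma bt'_seq (t : ℝ) : Tendsto (fun k : ℕ => bt' (1 / ((k : ℝ) + 1)) t) atTop
    (𝓝 (if 0 < t then 1 else 0)) := by
  by_cases ht : 0 < t
  · rw [if_pos ht]
    have hd := tendsto_one_div_add_atTop_nhds_zero_nat (𝕜 := ℝ)
    have h1 : Tendsto (fun k : ℕ => max (t - 1 / ((k : ℝ) + 1)) 0) atTop (𝓝 t) := by
      have := (hd.const_sub t).max (tendsto_const_nhds (x := (0 : ℝ)))
      simpa [ht.le] using this
    have h2 : Tendsto (fun k : ℕ => √((max (t - 1 / ((k : ℝ) + 1)) 0) ^ 2 +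
        (1 / ((k : ℝ) + 1)) ^ 2)) atTop (𝓝 t) := by
      have := ((h1.pow 2).add (hd.pow 2)).sqrt
      simpa [Real.sqrt_sq ht.le] using this
    have h3 := h1.div h2 ht.ne'
    rwa [div_self ht.ne'] at h3
  · rw [if_neg ht]
    push Not at ht
    have : (fun k : ℕ => bt' (1 / ((k : ℝ) + 1)) t) = fun _ => 0 := by
      funext k
      unfold bt'
      have : (0 : ℝ) < 1 / ((k : ℝ) + 1) := by positivity
      rw [max_eq_right (by linarith)]
      simp
    rw [this]; exact tendsto_const_nhds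

/-! ### gradients -/

lemma gradient_congr {f g : E N → ℝ} {x : E N} (h : f =ᶠ[𝓝 x] g) : ∇ f x = ∇ g x := by
  unfold gradient; rw [h.fderiv_eq]

lemma gradient_sub' {f g : E N → ℝ} {x : E N} (hf : DifferentiableAt ℝ f x)
    (hg : DifferentiableAt ℝ g x) : ∇ (fun y => f y - g y) x = ∇ f x - ∇ g x := by
  unfold gradient
  have : fderiv ℝ (fun y => f y - g y) x = fderiv ℝ f x - fderiv ℝ g x :=
    (hf.hasFDerivAt.sub hg.hasFDerivAt).fderiv
  rw [this, map_sub]

lemma gradient_comp' {f : E N → ℝ} {x : E N} {b : ℝ → ℝ} {b' : ℝ} (hb : HasDerivAt b b' (f x))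
    (hf : DifferentiableAt ℝ f x) : ∇ (fun y => b (f y)) x = b' • ∇ f x := by
  unfold gradient
  have : fderiv ℝ (fun y => b (f y)) x = b' • fderiv ℝ f x :=
    (hb.comp_hasFDerivAt x hf.hasFDerivAt).fderiv
  rw [this, map_smul]

/-- truncation of a `C¹` function which is less than `δ` on the frontier -/
lemma trunc {Ω : Set (E N)} (hΩ : IsOpen Ω) (hb : Bornology.IsBounded Ω) {h : E N → ℝ}
    (hh : ContDiff ℝ 1 h) {δ : ℝ} (hδ : 0 < δ) (hfr : ∀ x ∈ frontier Ω, h x < δ) :
    ContDiff ℝ 1 (Ω.indicator fun x => bt δ (h x)) ∧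
    HasCompactSupport (Ω.indicator fun x => bt δ (h x)) ∧
    tsupport (Ω.indicator fun x => bt δ (h x)) ⊆ Ω ∧
    ∀ x, ∇ (Ω.indicator fun x => bt δ (h x)) x = Ω.indicator (fun x => bt' δ (h x)) x • ∇ h x := by
  set K : Set (E N) := closure Ω ∩ {x | δ ≤ h x} with hK
  have hKc : IsCompact K := hb.isCompact_closure.inter_right (isClosed_le continuous_const
    hh.continuous)
  have hKΩ : K ⊆ Ω := by
    rintro x ⟨hx, hx'⟩
    by_contra hn
    have : x ∈ frontier Ω := by rw [hΩ.frontier_eq]; exact ⟨hx, hn⟩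
    exact absurd (hfr x this) (not_lt.2 hx')
  have h0 : ∀ x ∉ K, Ω.indicator (fun x => bt δ (h x)) x = 0 := by
    intro x hx
    by_cases hxΩ : x ∈ Ω
    · rw [indicator_of_mem hxΩ]
      have : h x < δ := by
        by_contra hn
        exact hx ⟨subset_closure hxΩ, not_lt.1 hn⟩
      exact bt_of_le hδ this.le
    · rw [indicator_of_notMem hxΩ]
  have hsupp : Function.support (Ω.indicator fun x => bt δ (h x)) ⊆ K := by
    intro x hx
    by_contra hn
    exact hx (h0 x hn)
  have hts : tsupport (Ω.indicator fun x => bt δ (h x)) ⊆ K :=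
    closure_minimal hsupp hKc.isClosed
  have hin : ∀ x ∈ Ω, (Ω.indicator fun x => bt δ (h x)) =ᶠ[𝓝 x] fun x => bt δ (h x) := by
    intro x hx
    filter_upwards [hΩ.mem_nhds hx] with y hy
    rw [indicator_of_mem hy]
  have hout : ∀ x ∉ Ω, (Ω.indicator fun x => bt δ (h x)) =ᶠ[𝓝 x] fun _ => 0 := by
    intro x hx
    filter_upwards [hKc.isClosed.isOpen_compl.mem_nhds (fun hk => hx (hKΩ hk))] with y hy
    exact h0 y hy
  refine ⟨?_, hKc.of_isClosed_subset isClosed_closure hts, hts.trans hKΩ, ?_⟩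
  · rw [contDiff_iff_contDiffAt]
    intro x
    by_cases hx : x ∈ Ω
    · exact (((contDiff_bt hδ).comp hh).contDiffAt).congr_of_eventuallyEq (hin x hx)
    · exact contDiffAt_const.congr_of_eventuallyEq (hout x hx)
  · intro x
    by_cases hx : x ∈ Ω
    · rw [gradient_congr (hin x hx), indicator_of_mem hx]
      exact gradient_comp' (hasDerivAt_bt hδ (h x)) (hh.differentiable (by norm_num) x)
    · rw [gradient_congr (hout x hx), indicator_of_notMem hx, zero_smul]
      simp [gradient]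

/-- cutting off -/
lemma cutoff {k : ℕ∞} {K V : Set (E N)} (hK : IsCompact K) (hV : IsOpen V)
    (hKV : K ⊆ V) {ψ : E N → ℝ} (hψ : ContDiffOn ℝ k ψ V) :
    ∃ ψ₁ : E N → ℝ, ContDiff ℝ k ψ₁ ∧ HasCompactSupport ψ₁ ∧
      ∃ U, IsOpen U ∧ K ⊆ U ∧ ∀ x ∈ U, ψ₁ x = ψ x := by
  obtain ⟨L, hL, hKL, hLV⟩ := exists_compact_between hK hV hKV
  obtain ⟨χ, h1, h2, h3⟩ := exists_contMDiffMap_one_nhds_of_subset_interior
    (n := k) (modelWithCornersSelf ℝ (E N)) hK.isClosed hKL
  have hχ : ContDiff ℝ k χ := χ.contMDiff.contDiff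
  refine ⟨fun x => χ x * ψ x, ?_, ?_, ?_⟩
  · rw [contDiff_iff_contDiffAt]
    intro x
    by_cases hx : x ∈ V
    · exact hχ.contDiffAt.mul (hψ.contDiffAt (hV.mem_nhds hx))
    · have hxL : x ∉ L := fun h => hx (hLV h)
      have : (fun x => χ x * ψ x) =ᶠ[𝓝 x] fun _ => 0 := by
        filter_upwards [hL.isClosed.isOpen_compl.mem_nhds hxL] with y hy
        rw [h2 y hy, zero_mul]
      exact contDiffAt_const.congr_of_eventuallyEq this
  · refine hL.of_isClosed_subset isClosed_closure (closure_minimal ?_ hL.isClosed)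
    intro x hx
    by_contra hn
    exact hx (by simp [h2 x hn])
  · rw [Filter.Eventually, mem_nhdsSet_iff_exists] at h1
    obtain ⟨U, hU, hKU, hU1⟩ := h1
    refine ⟨U, hU, hKU, fun x hx => ?_⟩
    have : χ x = 1 := hU1 hx
    simp [this]

/-! ### closedness -/

lemma ts_pos (hN : 3 ≤ N) : 0 < ts N := by
  unfold ts
  have : (3 : ℝ) ≤ N := by exact_mod_cast hN
  have h1 : (0 : ℝ) < N - 2 := by linarith
  positivity

/-- convergence in `D` implies a.e. convergence of the functions along a subsequence -/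
lemma ae_subseq (hN : 3 ≤ N) {w : ℕ → LV N} {v : LV N} (hw : ∀ n, w n ∈ DD univ)
    (h : Tendsto w atTop (𝓝 v)) : v ∈ DD univ ∧ ∃ ns : ℕ → ℕ, StrictMono ns ∧
      ∀ᵐ x, Tendsto (fun k => fn (w (ns k)) x) atTop (𝓝 (fn v x)) := by
  obtain ⟨hv, h1⟩ := fn_tendsto hN hw h
  refine ⟨hv, ?_⟩
  have m1 : ∀ n, MemLp (fn (w n)) (ENNReal.ofReal (ts N)) volume := fun n => by
    have := (sobolev hN (hw n)).1
    rwa [Mq, Measure.restrict_univ] at this
  have m2 : MemLp (fn v) (ENNReal.ofReal (ts N)) volume := by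
    have := (sobolev hN hv).1
    rwa [Mq, Measure.restrict_univ] at this
  have h2 : Tendsto (fun n => eLpNorm (fn (w n) - fn v) (ENNReal.ofReal (ts N)) volume) atTop
      (𝓝 0) := by
    rw [← ENNReal.toReal_zero] at h1
    unfold nq at h1
    rw [Measure.restrict_univ] at h1
    exact (ENNReal.tendsto_toReal_iff (fun n => ((m1 n).sub m2).2.ne) ENNReal.zero_ne_top).1 h1
  exact (tendstoInMeasure_of_tendsto_eLpNorm
    (by simpa using ts_pos hN) (fun n => (m1 n).aestronglyMeasurable)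
    m2.aestronglyMeasurable h2).exists_seq_tendsto_ae

lemma closedD (hN : 3 ≤ N) {Ω : Set (E N)} {w : ℕ → LV N} {v : LV N} (hw : ∀ n, w n ∈ DD Ω)
    (h : Tendsto w atTop (𝓝 v)) {u : E N → ℝ}
    (hu : ∀ᵐ x, Tendsto (fun n => fn (w n) x) atTop (𝓝 (u x))) : v ∈ DD Ω ∧ fn v =ᵐ[volume] u := by
  have hv : v ∈ DD Ω := (Submodule.isClosed_topologicalClosure _).mem_of_tendsto h
    (Eventually.of_forall hw)
  refine ⟨hv, ?_⟩
  obtain ⟨_, ns, hns, h1⟩ := ae_subseq hN (fun n => DD_mono (subset_univ Ω) (hw n)) h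
  filter_upwards [hu, h1] with x hx hx'
  exact tendsto_nhds_unique hx' (hx.comp hns.tendsto_atTop)

lemma memLp_grad {ψ : E N → ℝ} (hψ : ContDiff ℝ 1 ψ) (hs : HasCompactSupport ψ) :
    MemLp (fun x => ∇ ψ x) 2 (volume : Measure (E N)) :=
  (Pool.Agent.helper33.Insul.isH1_C1 hψ hs).memLp_grad

/-- the truncation, for a compactly supported `C¹` obstacle -/
lemma chain0 (hN : 3 ≤ N) {Ω : Set (E N)} (hΩ : IsOpen Ω) (hb : Bornology.IsBounded Ω)
    {ψ : E N → ℝ} (hψ : ContDiff ℝ 1 ψ) (hs : HasCompactSupport ψ)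
    (h0 : ∀ x ∈ frontier Ω, 0 ≤ ψ x) {w : LV N} (hw : w ∈ DD Ω) :
    ∃ w' ∈ DD Ω, fn w' =ᵐ[volume] Ω.indicator (fun x => max (fn w x - ψ x) 0) ∧
      (w' : E N → E N) =ᵐ[volume] {x | x ∈ Ω ∧ ψ x < fn w x}.indicator (fun x => w x - ∇ ψ x) := by
  obtain ⟨φ0, W0, hφ0, hW0⟩ := DD_seq.1 hw
  have hWD0 : ∀ n, W0 n ∈ DD univ := fun n =>
    DD_mono (subset_univ Ω) (Submodule.le_topologicalClosure _
      (Submodule.subset_span ⟨φ0 n, (hφ0 n).1, (hφ0 n).2⟩))
  obtain ⟨_, ns, hns, hae0⟩ := ae_subseq hN hWD0 hW0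
  set φ : ℕ → E N → ℝ := fun k => φ0 (ns k) with hφd
  set W : ℕ → LV N := fun k => W0 (ns k) with hWd
  have hφ : ∀ k, IsTest Ω (φ k) ∧ IsGrad (W k) (φ k) := fun k => hφ0 (ns k)
  have hW : Tendsto W atTop (𝓝 w) := hW0.comp hns.tendsto_atTop
  have hfe : ∀ k, fn (W k) =ᵐ[volume] φ k := fun k =>
    fn_test hN ⟨(hφ k).1.1, (hφ k).1.2.1, subset_univ _⟩ (hφ k).2
  have hae : ∀ᵐ x, Tendsto (fun k => φ k x) atTop (𝓝 (fn w x)) := by
    filter_upwards [hae0, ae_all_iff.2 hfe] with x hx hx'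
    refine hx.congr fun k => ?_
    exact hx' k
  -- the field `w - ∇ψ`
  set f : E N → E N := fun x => w x - ∇ ψ x with hf
  have hfm : MemLp f 2 volume := (Lp.memLp w).sub (memLp_grad hψ hs)
  set f' : ℕ → E N → E N := fun k x => ∇ (φ k) x - ∇ ψ x with hf'
  have hφ1 : ∀ k, ContDiff ℝ 1 (φ k) := fun k => (hφ k).1.1.of_le (by norm_cast)
  have hfm' : ∀ k, MemLp (f' k) 2 volume := fun k =>
    (memLp_grad (hφ1 k) (hφ k).1.2.1).sub (memLp_grad hψ hs)
  have hff : Tendsto (fun k => eLpNorm (f' k - f) 2 volume) atTop (𝓝 0) := by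
    have h1 := (Lp.tendsto_Lp_iff_tendsto_eLpNorm' W w).1 hW
    refine h1.congr fun k => eLpNorm_congr_ae ?_
    filter_upwards [(hφ k).2] with x hx
    simp only [Pi.sub_apply, hf, hf', hx]
    abel
  have hfrd : ∀ k, ∀ δ > 0, ∀ x ∈ frontier Ω, φ k x - ψ x < δ := by
    intro k δ hδ x hx
    have h1 : φ k x = 0 := by
      have : x ∉ tsupport (φ k) := fun h => by
        have h2 := (hφ k).1.2.2 h
        rw [hΩ.frontier_eq] at hx
        exact hx.2 h2
      exact image_eq_zero_of_notMem_tsupport this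
    have := h0 x hx
    rw [h1]; linarith
  -- step A
  have stepA : ∀ δ > 0, ∃ v ∈ DD Ω, fn v =ᵐ[volume] Ω.indicator (fun x => bt δ (fn w x - ψ x)) ∧
      (v : E N → E N) =ᵐ[volume] fun x => Ω.indicator (fun x => bt' δ (fn w x - ψ x)) x • f x := by
    intro δ hδ
    have htr := fun k => trunc hΩ hb ((hφ1 k).sub hψ) hδ (hfrd k δ hδ)
    choose G hG using fun k => exists_isGrad (htr k).1 (htr k).2.1
    have hGD := fun k => mem_DD_C1 hN hΩ (htr k).1 (htr k).2.1 (htr k).2.2.1 (hG k)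
    set a' : ℕ → E N → ℝ := fun k => Ω.indicator (fun x => bt' δ (φ k x - ψ x)) with ha'
    set a : E N → ℝ := Ω.indicator (fun x => bt' δ (fn w x - ψ x)) with ha
    have ham : ∀ k, AEStronglyMeasurable (a' k) volume := fun k =>
      (((continuous_bt' hδ).comp ((hφ1 k).continuous.sub hψ.continuous)).aestronglyMeasurable
        ).indicator hΩ.measurableSet
    have ham0 : AEStronglyMeasurable a volume :=
      ((continuous_bt' hδ).comp_aestronglyMeasurable
        ((fn_meas w).sub hψ.continuous.aestronglyMeasurable)).indicator hΩ.measurableSet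
    have hab : ∀ k, ∀ᵐ x, |a' k x| ≤ 1 := fun k => Eventually.of_forall fun x => by
      simp only [ha']
      by_cases hx : x ∈ Ω
      · rw [indicator_of_mem hx]; exact bt'_abs_le hδ _
      · rw [indicator_of_notMem hx]; simp
    have hlim : ∀ᵐ x, Tendsto (fun k => a' k x) atTop (𝓝 (a x)) := by
      filter_upwards [hae] with x hx
      simp only [ha', ha]
      by_cases hxΩ : x ∈ Ω
      · simp only [indicator_of_mem hxΩ]
        exact ((continuous_bt' hδ).tendsto _).comp (hx.sub_const (ψ x))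
      · simp only [indicator_of_notMem hxΩ]; exact tendsto_const_nhds
    have hT := Pool.Agent.helper33.Insul.tendsto_smul_L2 hfm hfm' ham hab hlim hff
    have hab0 : ∀ᵐ x, ‖a x‖ ≤ 1 := Eventually.of_forall fun x => by
      simp only [ha, Real.norm_eq_abs]
      by_cases hx : x ∈ Ω
      · rw [indicator_of_mem hx]; exact bt'_abs_le hδ _
      · rw [indicator_of_notMem hx]; simp
    have hm : MemLp (fun x => a x • f x) 2 volume := by
      refine MemLp.of_le hfm (ham0.smul hfm.aestronglyMeasurable) ?_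
      filter_upwards [hab0] with x hx
      rw [norm_smul]
      calc ‖a x‖ * ‖f x‖ ≤ 1 * ‖f x‖ := mul_le_mul_of_nonneg_right hx (norm_nonneg _)
        _ = _ := one_mul _
    have hTL : Tendsto G atTop (𝓝 (hm.toLp _)) := by
      rw [Lp.tendsto_Lp_iff_tendsto_eLpNorm]
      refine hT.congr fun k => eLpNorm_congr_ae ?_
      filter_upwards [hG k] with x hx
      simp only [Pi.sub_apply]
      rw [hx, (htr k).2.2.2 x]
      congr 2
      exact (gradient_sub' ((hφ1 k).differentiable (by norm_num) x)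
        (hψ.differentiable (by norm_num) x)).symm
    have hfin := closedD hN (fun k => (hGD k).1) hTL
      (u := Ω.indicator (fun x => bt δ (fn w x - ψ x))) (by
        filter_upwards [hae, ae_all_iff.2 fun k => (hGD k).2] with x hx hx'
        have e : (fun k => fn (G k) x) = fun k =>
          Ω.indicator (fun x => bt δ (φ k x - ψ x)) x := funext fun k => hx' k
        rw [e]
        by_cases hxΩ : x ∈ Ω
        · simp only [indicator_of_mem hxΩ]
          exact (((contDiff_bt hδ).continuous).tendsto _).comp (hx.sub_const (ψ x))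
        · simp only [indicator_of_notMem hxΩ]; exact tendsto_const_nhds)
    exact ⟨_, hfin.1, hfin.2, hm.coeFn_toLp⟩
  -- step B
  have hδk : ∀ k : ℕ, (0 : ℝ) < 1 / ((k : ℝ) + 1) := fun k => by positivity
  choose v hv1 hv2 hv3 using fun k : ℕ => stepA (1 / ((k : ℝ) + 1)) (hδk k)
  set a' : ℕ → E N → ℝ := fun k => Ω.indicator (fun x => bt' (1 / ((k : ℝ) + 1)) (fn w x - ψ x))
    with ha'
  set a : E N → ℝ := Ω.indicator (fun x => if 0 < fn w x - ψ x then 1 else 0) with ha
  have ham : ∀ k, AEStronglyMeasurable (a' k) volume := fun k =>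
    ((continuous_bt' (hδk k)).comp_aestronglyMeasurable
        ((fn_meas w).sub hψ.continuous.aestronglyMeasurable)).indicator hΩ.measurableSet
  have hab : ∀ k, ∀ᵐ x, |a' k x| ≤ 1 := fun k => Eventually.of_forall fun x => by
    simp only [ha']
    by_cases hx : x ∈ Ω
    · rw [indicator_of_mem hx]; exact bt'_abs_le (hδk k) _
    · rw [indicator_of_notMem hx]; simp
  have hlim : ∀ᵐ x, Tendsto (fun k => a' k x) atTop (𝓝 (a x)) := by
    refine Eventually.of_forall fun x => ?_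
    simp only [ha', ha]
    by_cases hxΩ : x ∈ Ω
    · simp only [indicator_of_mem hxΩ]
      exact bt'_seq _
    · simp only [indicator_of_notMem hxΩ]; exact tendsto_const_nhds
  have ham0 : AEStronglyMeasurable a volume := aestronglyMeasurable_of_tendsto_ae _ ham hlim
  have hab0 : ∀ᵐ x, ‖a x‖ ≤ 1 := Eventually.of_forall fun x => by
    simp only [ha, Real.norm_eq_abs]
    by_cases hx : x ∈ Ω
    · rw [indicator_of_mem hx]; split_ifs <;> simp
    · rw [indicator_of_notMem hx]; simp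
  have hm : MemLp (fun x => a x • f x) 2 volume := by
    refine MemLp.of_le hfm (ham0.smul hfm.aestronglyMeasurable) ?_
    filter_upwards [hab0] with x hx
    rw [norm_smul]
    calc ‖a x‖ * ‖f x‖ ≤ 1 * ‖f x‖ := mul_le_mul_of_nonneg_right hx (norm_nonneg _)
      _ = _ := one_mul _
  have hT := Pool.Agent.helper33.Insul.tendsto_smul_L2 hfm (fun _ : ℕ => hfm) ham hab hlim
    (Pool.Agent.helper33.Insul.tendsto_const_eLpNorm f)
  have hTL : Tendsto v atTop (𝓝 (hm.toLp _)) := by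
    rw [Lp.tendsto_Lp_iff_tendsto_eLpNorm]
    refine hT.congr fun k => eLpNorm_congr_ae ?_
    filter_upwards [hv3 k] with x hx
    simp only [Pi.sub_apply]
    rw [hx]
  have hfin := closedD hN hv1 hTL
    (u := Ω.indicator (fun x => max (fn w x - ψ x) 0)) (by
      filter_upwards [ae_all_iff.2 hv2] with x hx'
      have e : (fun k => fn (v k) x) = fun k : ℕ =>
        Ω.indicator (fun x => bt (1 / ((k : ℝ) + 1)) (fn w x - ψ x)) x := funext fun k => hx' k
      rw [e]
      by_cases hxΩ : x ∈ Ω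
      · simp only [indicator_of_mem hxΩ]
        exact bt_seq _
      · simp only [indicator_of_notMem hxΩ]; exact tendsto_const_nhds)
  refine ⟨_, hfin.1, hfin.2, ?_⟩
  refine hm.coeFn_toLp.trans (Eventually.of_forall fun x => ?_)
  simp only [ha, hf]
  by_cases hxΩ : x ∈ Ω
  · rw [indicator_of_mem hxΩ]
    by_cases h : ψ x < fn w x
    · rw [if_pos (by linarith), one_smul, indicator_of_mem (show x ∈ {x | x ∈ Ω ∧ ψ x < fn w x}
        from ⟨hxΩ, h⟩)]
    · rw [if_neg (by linarith), zero_smul, indicator_of_notMem (fun h' => h h'.2)]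
  · rw [indicator_of_notMem hxΩ, zero_smul, indicator_of_notMem (fun h' => hxΩ h'.1)]

end Ch

open Ch

/-- truncation -/
theorem chain (hN : 3 ≤ N) {Ω V : Set (E N)} (hΩ : IsOpen Ω) (hb : Bornology.IsBounded Ω)
    (hV : IsOpen V) (hΩV : closure Ω ⊆ V) {ψ : E N → ℝ} (hψ : ContDiffOn ℝ 1 ψ V)
    (h0 : ∀ x ∈ frontier Ω, 0 ≤ ψ x) {w : LV N} (hw : w ∈ DD Ω) :
    ∃ w' ∈ DD Ω, fn w' =ᵐ[volume] Ω.indicator (fun x => max (fn w x - ψ x) 0) ∧
      (w' : E N → E N) =ᵐ[volume] {x | x ∈ Ω ∧ ψ x < fn w x}.indicator (fun x => w x - ∇ ψ x) := by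
  obtain ⟨ψ₁, h1, h2, U, hU, hKU, hUψ⟩ := cutoff (k := 1) hb.isCompact_closure hV hΩV
    (by exact_mod_cast hψ)
  have h1' : ContDiff ℝ 1 ψ₁ := by exact_mod_cast h1
  obtain ⟨w', hw', e1, e2⟩ := chain0 hN hΩ hb h1' h2 (fun x hx => by
    rw [hUψ x (hKU (frontier_subset_closure hx))]; exact h0 x hx) hw
  refine ⟨w', hw', e1.trans (Eventually.of_forall fun x => ?_),
    e2.trans (Eventually.of_forall fun x => ?_)⟩
  · by_cases hx : x ∈ Ω
    · simp only [indicator_of_mem hx, hUψ x (hKU (subset_closure hx))]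
    · simp only [indicator_of_notMem hx]
  · by_cases hx : x ∈ Ω
    · have h3 : ψ₁ x = ψ x := hUψ x (hKU (subset_closure hx))
      have h4 : ∇ ψ₁ x = ∇ ψ x := gradient_congr (by
        filter_upwards [hU.mem_nhds (hKU (subset_closure hx))] with y hy using hUψ y hy)
      by_cases h : ψ x < fn w x
      · rw [indicator_of_mem (show x ∈ {x | x ∈ Ω ∧ ψ₁ x < fn w x} from ⟨hx, by rw [h3]; exact h⟩),
          indicator_of_mem (show x ∈ {x | x ∈ Ω ∧ ψ x < fn w x} from ⟨hx, h⟩), h4]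
      · rw [indicator_of_notMem (fun h' => h (by rw [← h3]; exact h'.2)),
          indicator_of_notMem (fun h' => h h'.2)]
    · rw [indicator_of_notMem (fun h' => hx h'.1), indicator_of_notMem (fun h' => hx h'.1)]

namespace Ch

lemma inner_eq_sum' (v w : E N) :
    (⟪v, w⟫ : ℝ) = ∑ i : Fin N, ⟪v, EuclideanSpace.single i 1⟫ * ⟪w, EuclideanSpace.single i 1⟫ := by
  have h := (EuclideanSpace.basisFun (Fin N) ℝ).sum_inner_mul_inner v w
  rw [← h]
  refine Finset.sum_congr rfl fun i _ => ?_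
  rw [EuclideanSpace.basisFun_apply, real_inner_comm w]

lemma grad_inner_apply (f : E N → ℝ) (x v : E N) : ⟪∇ f x, v⟫ = fderiv ℝ f x v := by
  unfold gradient
  rw [InnerProductSpace.toDual_symm_apply]

/-- `C²` functions with compact support are weak solutions of their Poisson equation -/
lemma weak_C2cc (hN : 3 ≤ N) {ψ : E N → ℝ} (hψ : ContDiff ℝ 2 ψ) (hs : HasCompactSupport ψ)
    {Ψ : LV N} (hΨ : IsGrad Ψ ψ) : Weak univ Ψ (fun x => - lap ψ x) := by
  have hψ1 : ContDiff ℝ 1 ψ := hψ.of_le (by norm_num)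
  refine ⟨(mem_DD_C1 hN isOpen_univ hψ1 hs (subset_univ _) hΨ).1, ?_⟩
  intro φ W hφ hW
  have hφ1 : ContDiff ℝ 1 φ := hφ.1.of_le (by norm_cast)
  have h1 : ⟪Ψ, W⟫ = ∫ x, ∑ i : Fin N, fderiv ℝ ψ x (EuclideanSpace.single i 1) *
      fderiv ℝ φ x (EuclideanSpace.single i 1) := by
    rw [L2.inner_def]
    refine integral_congr_ae ?_
    filter_upwards [hΨ, hW] with x hx hx'
    rw [hx, hx', inner_eq_sum']
    refine Finset.sum_congr rfl fun i _ => ?_
    rw [grad_inner_apply, grad_inner_apply]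
  have hd : ∀ i : Fin N, ContDiff ℝ 1 fun x => fderiv ℝ ψ x (EuclideanSpace.single i 1) := fun i =>
    (hψ.fderiv_right (m := 1) (by norm_num)).clm_apply contDiff_const
  have hds : ∀ i : Fin N, HasCompactSupport fun x =>
      fderiv ℝ ψ x (EuclideanSpace.single i (1 : ℝ)) := fun i => hs.fderiv_apply ℝ _
  have hφs : ∀ i : Fin N, Continuous fun x => fderiv ℝ φ x (EuclideanSpace.single i (1 : ℝ)) :=
    fun i => (hφ1.continuous_fderiv (by norm_num)).clm_apply continuous_const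
  have hdd : ∀ i : Fin N, Continuous fun x =>
      fderiv ℝ (fun y => fderiv ℝ ψ y (EuclideanSpace.single i (1 : ℝ))) x
        (EuclideanSpace.single i 1) := fun i =>
    ((hd i).continuous_fderiv (by norm_num)).clm_apply continuous_const
  have hint1 : ∀ i : Fin N, Integrable (fun x => fderiv ℝ ψ x (EuclideanSpace.single i (1 : ℝ)) *
      fderiv ℝ φ x (EuclideanSpace.single i 1)) volume := fun i =>
    ((hd i).continuous.mul (hφs i)).integrable_of_hasCompactSupport (hds i).mul_right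
  have hint2 : ∀ i : Fin N, Integrable (fun x =>
      fderiv ℝ (fun y => fderiv ℝ ψ y (EuclideanSpace.single i (1 : ℝ))) x
        (EuclideanSpace.single i 1) * φ x) volume := fun i =>
    ((hdd i).mul hφ1.continuous).integrable_of_hasCompactSupport hφ.2.1.mul_left
  have hint3 : ∀ i : Fin N, Integrable (fun x =>
      fderiv ℝ ψ x (EuclideanSpace.single i (1 : ℝ)) * φ x) volume := fun i =>
    ((hd i).continuous.mul hφ1.continuous).integrable_of_hasCompactSupport hφ.2.1.mul_left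
  rw [h1, integral_finsetSum _ fun i _ => hint1 i]
  have h2 : ∀ i : Fin N, ∫ x, fderiv ℝ ψ x (EuclideanSpace.single i (1 : ℝ)) *
      fderiv ℝ φ x (EuclideanSpace.single i 1) = - ∫ x,
      fderiv ℝ (fun y => fderiv ℝ ψ y (EuclideanSpace.single i (1 : ℝ))) x
        (EuclideanSpace.single i 1) * φ x := fun i =>
    integral_mul_fderiv_eq_neg_fderiv_mul_of_integrable (hint2 i) (hint1 i) (hint3 i)
      (fun x _ => (hd i).differentiable (by norm_num) x)
      (fun x _ => hφ1.differentiable (by norm_num) x)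
  simp_rw [h2]
  rw [Finset.sum_neg_distrib, ← integral_finsetSum _ fun i _ => hint2 i, ← integral_neg]
  refine integral_congr_ae (Eventually.of_forall fun x => ?_)
  simp only [lap]
  rw [neg_mul, Finset.sum_mul]

end Ch

/-- comparison principle -/
theorem comp (hN : 3 ≤ N) {Ω V : Set (E N)} (hΩ : IsOpen Ω) (hb : Bornology.IsBounded Ω)
    (hV : IsOpen V) (hΩV : closure Ω ⊆ V) {ψ : E N → ℝ} (hψ : ContDiffOn ℝ 2 ψ V)
    (h0 : ∀ x ∈ frontier Ω, 0 ≤ ψ x) {w : LV N} {g : E N → ℝ} (hg : Mq (td N) Ω g)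
    (hw : Weak Ω w g) (hle : ∀ᵐ x, x ∈ Ω → g x ≤ - lap ψ x) :
    ∀ᵐ x, x ∈ Ω → fn w x ≤ ψ x := by
  obtain ⟨ψ₁, h1, h2, U, hU, hKU, hUψ⟩ := cutoff (k := 2) hb.isCompact_closure hV hΩV
    (by exact_mod_cast hψ)
  have h1' : ContDiff ℝ 2 ψ₁ := by exact_mod_cast h1
  have h11 : ContDiff ℝ 1 ψ₁ := h1'.of_le (by norm_num)
  obtain ⟨w', hw', e1, e2⟩ := chain0 hN hΩ hb h11 h2 (fun x hx => by
    rw [hUψ x (hKU (frontier_subset_closure hx))]; exact h0 x hx) hw.1
  obtain ⟨Ψ, hΨ⟩ := exists_isGrad h11 h2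
  have hwk := weak_C2cc hN h1' h2 hΨ
  have hlc : Continuous (lap ψ₁) := continuous_iff_continuousAt.2 fun x =>
    continuousAt_lap h1'.contDiffAt
  have hls : HasCompactSupport (lap ψ₁) := by
    refine h2.mono' fun x hx => ?_
    by_contra hn
    apply hx
    have h3 : ψ₁ =ᶠ[𝓝 x] fun _ => 0 := by
      filter_upwards [(isClosed_tsupport ψ₁).isOpen_compl.mem_nhds hn] with y hy
      exact image_eq_zero_of_notMem_tsupport hy
    rw [lap_congr h3]
    simp [lap]
  have hmq : Mq (td N) univ (fun x => - lap ψ₁ x) := by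
    rw [Mq, Measure.restrict_univ]
    exact (hlc.memLp_of_hasCompactSupport hls).neg
  have hDu : DD Ω ≤ DD univ := DD_mono (subset_univ Ω)
  obtain ⟨i1, p1⟩ := weak_pair hN MeasurableSet.univ hmq hwk (hDu hw')
  obtain ⟨i2, p2⟩ := weak_pair hN hΩ.measurableSet hg hw hw'
  rw [Measure.restrict_univ] at i1 p1
  have e3 : ⟪w', w'⟫ = ⟪w - Ψ, w'⟫ := by
    rw [L2.inner_def, L2.inner_def]
    refine integral_congr_ae ?_
    filter_upwards [e2, Lp.coeFn_sub w Ψ, hΨ] with x hx hx' hx''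
    rw [hx', Pi.sub_apply, hx'', hx]
    by_cases h : x ∈ {x | x ∈ Ω ∧ ψ₁ x < fn w x}
    · rw [indicator_of_mem h]
    · rw [indicator_of_notMem h, inner_zero_left, inner_zero_right]
  have e4 : ∫ x, - lap ψ₁ x * fn w' x = ∫ x in Ω, - lap ψ₁ x * fn w' x := by
    rw [← integral_indicator hΩ.measurableSet]
    refine integral_congr_ae ?_
    filter_upwards [e1] with x hx
    by_cases h : x ∈ Ω
    · rw [indicator_of_mem h]
    · rw [indicator_of_notMem h, hx, indicator_of_notMem h, mul_zero]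
  have e5 : ⟪w', w'⟫ = ∫ x in Ω, (g x + lap ψ₁ x) * fn w' x := by
    rw [e3, inner_sub_left, p2, p1, e4, ← integral_sub i2 i1.integrableOn]
    refine integral_congr_ae (Eventually.of_forall fun x => ?_)
    simp only
    ring
  have e6 : ⟪w', w'⟫ ≤ 0 := by
    rw [e5]
    refine integral_nonpos_of_ae ?_
    rw [Filter.EventuallyLE, ae_restrict_iff' hΩ.measurableSet]
    filter_upwards [e1, hle] with x hx hx' hxΩ
    have h3 : lap ψ₁ x = lap ψ x := lap_congr (by
      filter_upwards [hU.mem_nhds (hKU (subset_closure hxΩ))] with y hy using hUψ y hy)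
    have h4 : 0 ≤ fn w' x := by
      rw [hx, indicator_of_mem hxΩ]; exact le_max_right _ _
    have h5 := hx' hxΩ
    rw [h3]
    simp only [Pi.zero_apply]
    nlinarith
  have e7 : w' = 0 := by
    have := real_inner_self_nonneg (x := w')
    exact inner_self_eq_zero.1 (le_antisymm e6 this)
  have e8 := fn_zero (N := N) hN
  rw [e7] at e1
  filter_upwards [e1, e8] with x hx hx' hxΩ
  rw [hx', indicator_of_mem hxΩ] at hx
  have h3 : ψ₁ x = ψ x := hUψ x (hKU (subset_closure hxΩ))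
  have h4 := le_max_left (fn w x - ψ₁ x) 0
  rw [← hx, h3] at h4
  linarith

/-- the barrier `K (1-|x|²)/(2N)` -/
theorem comp_ball (hN : 3 ≤ N) {Ω : Set (E N)} (hΩ : IsOpen Ω) (hb : Ω ⊆ ball 0 1)
    {w : LV N} {g : E N → ℝ} {K : ℝ} (hgm : AEStronglyMeasurable g (volume.restrict Ω))
    (hw : Weak Ω w g) (hK : ∀ᵐ x, x ∈ Ω → |g x| ≤ K) :
    ∀ᵐ x, x ∈ Ω → |fn w x| ≤ K * (1 - ‖x‖ ^ 2) / (2 * N) := by
  by_cases hne : Ω = ∅
  · exact Eventually.of_forall fun x hx => by rw [hne] at hx; exact absurd hx (notMem_empty x)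
  have hbd : Bornology.IsBounded Ω := isBounded_ball.subset hb
  have hN0 : (0 : ℝ) < N := by
    have : 0 < N := by omega
    exact_mod_cast this
  have hK0 : 0 ≤ K := by
    by_contra hcon
    push Not at hcon
    have h1 : volume Ω = 0 := by
      refine measure_mono_null (t := {x | ¬ (x ∈ Ω → |g x| ≤ K)}) (fun x hx h => ?_) hK
      have := abs_nonneg (g x)
      linarith [h hx]
    exact hne ((hΩ.measure_eq_zero_iff volume).1 h1)
  set ψ : E N → ℝ := fun x => K / (2 * N) + (- (K / (2 * N))) * ‖x - 0‖ ^ 2 with hψ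
  have hsq : ContDiff ℝ 2 (fun x : E N => ‖x - 0‖ ^ 2) :=
    (contDiff_norm_sq ℝ).comp (contDiff_id.sub contDiff_const)
  have hψc : ContDiff ℝ 2 ψ := contDiff_const.add (contDiff_const.mul hsq)
  have hlap : ∀ x, lap ψ x = - K := by
    intro x
    rw [hψ, lap_add contDiffAt_const (contDiffAt_const.mul hsq.contDiffAt),
      lap_const_mul _ hsq.contDiffAt, lap_norm_sq]
    have : lap (fun _ : E N => K / (2 * N)) x = 0 := by simp [lap]
    rw [this]
    field_simp
    ring
  have hfr : ∀ x ∈ frontier Ω, 0 ≤ ψ x := by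
    intro x hx
    have h1 : x ∈ closedBall (0 : E N) 1 := by
      have h2 : closure Ω ⊆ closedBall (0 : E N) 1 :=
        closure_minimal (hb.trans ball_subset_closedBall) isClosed_closedBall
      exact h2 (frontier_subset_closure hx)
    rw [mem_closedBall_zero_iff] at h1
    have h3 : ‖x‖ ^ 2 ≤ 1 := by
      have := norm_nonneg x
      nlinarith
    simp only [hψ, sub_zero]
    have h4 : 0 ≤ K / (2 * N) := by positivity
    nlinarith
  have hmq : Mq (td N) Ω g := by
    have : IsFiniteMeasure (volume.restrict Ω) :=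
      ⟨by rw [Measure.restrict_apply_univ]; exact hbd.measure_lt_top⟩
    refine MemLp.of_bound hgm K ?_
    rw [ae_restrict_iff' hΩ.measurableSet]
    exact hK
  have hneg : Weak Ω (-w) (fun x => - g x) := by
    refine ⟨Submodule.neg_mem _ hw.1, fun φ W hφ hW => ?_⟩
    rw [inner_neg_left, hw.2 φ W hφ hW, ← integral_neg]
    refine integral_congr_ae (Eventually.of_forall fun x => ?_)
    simp only
    ring
  have a1 := comp hN hΩ hbd isOpen_univ (subset_univ _) hψc.contDiffOn hfr hmq hw (by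
    filter_upwards [hK] with x hx hxΩ
    rw [hlap]
    have := abs_le.1 (hx hxΩ)
    linarith)
  have a2 := comp hN hΩ hbd isOpen_univ (subset_univ _) hψc.contDiffOn hfr hmq.neg hneg (by
    filter_upwards [hK] with x hx hxΩ
    rw [hlap]
    have := abs_le.1 (hx hxΩ)
    simp only [neg_neg, Pi.neg_apply]
    linarith)
  have a3 : fn (-w) =ᵐ[volume] fun x => - fn w x := by
    have := fn_smul hN (-1) (DD_mono (subset_univ Ω) hw.1)
    rw [neg_one_smul] at this
    filter_upwards [this] with x hx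
    rw [hx]; ring
  filter_upwards [a1, a2, a3] with x h1 h2 h3 hxΩ
  have e : ψ x = K * (1 - ‖x‖ ^ 2) / (2 * N) := by
    simp only [hψ, sub_zero]
    field_simp
    ring
  rw [← e, abs_le]
  have h4 := h2 hxΩ
  rw [h3] at h4
  exact ⟨by linarith, h1 hxΩ⟩

end Pool.Agent.helper13.BN
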